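import Mathlib
import Pool.Agent.Q210.IU.Main

/-!
The definitions are in `Pool.Agent.Q210.IU.Fml` (`D0`, `S1`, `Sat`, `cons`: formulas of the Levy
hierarchy and their truth in the universe of all sets) and `Pool.Agent.Q210.IU.Meas`
(`IsMeasurable`).
-/

open Cardinal Ordinal ZFSet

universe u

namespace Pool.Agent.Results.MP_13a02f_lc.NoLongWellOrder

open Q210.IU

/-- `R` is a well-ordering of the set `D`, in the strict or in the non-strict sense: `R` relates
only members of `D`, and the strict part `x ≠ y ∧ R x y` is a strict well-ordering of `D`. -/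
def WellOrders (R : ZFSet.{u} → ZFSet.{u} → Prop) (D : ZFSet.{u}) : Prop :=
  (∀ x y, R x y → x ∈ D ∧ y ∈ D) ∧ IsWellOrder D (fun a b => R a.1 b.1 ∧ a.1 ≠ b.1)

/-- Let `λ` be the supremum of a strictly increasing `ω`-sequence of measurable cardinals and let
`p` be an element of `V_λ`. Then no well-ordering of a subset of `P(λ)` of cardinality greater than
`λ` is definable by a `Σ_1`-formula with parameters `λ` and `p`. -/
theorem result (κ : ℕ → Cardinal.{u}) (hκ : StrictMono κ) (hm : ∀ n, IsMeasurable (κ n))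
    (p : ZFSet.{u}) (hp : p ∈ V_ (⨆ n, κ n).ord) (φ : S1)
    (D : ZFSet.{u}) (hD : D ⊆ powerset (⨆ n, κ n).ord.toZFSet) (hc : (⨆ n, κ n) < D.card)
    (R : ZFSet.{u} → ZFSet.{u} → Prop)
    (hφ : ∀ x y, R x y ↔
      φ.Sat (cons x (cons y (cons (⨆ n, κ n).ord.toZFSet (fun _ => p))))) :
    ¬ WellOrders R D := by
  rintro ⟨hR, hwo⟩
  refine no_long_wo κ hκ hm D (fun x hx => mem_powerset.1 (hD hx)) hc R hR ?_ ?_ p
    (mem_vonNeumann.1 hp) φ hφ
  · intro x hx y hy hxy
    rcases @trichotomous_of D (fun a b => R a.1 b.1 ∧ a.1 ≠ b.1) _ ⟨x, hx⟩ ⟨y, hy⟩ with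
      h | h | h
    · exact Or.inl h.1
    · exact absurd (Subtype.ext_iff.1 h) hxy
    · exact Or.inr h.1
  · intro f hf
    have hfD : ∀ i, f i ∈ D := fun i => (hR _ _ (hf i).1).2
    exact (wellFounded_iff_isEmpty_descending_chain.1 hwo.wf).false
      ⟨fun i => (⟨f i, hfD i⟩ : D), hf⟩

end Pool.Agent.Results.MP_13a02f_lc.NoLongWellOrder
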